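import Mathlib
import Pool.Agent.Results.MP_725b87_an.NotPluripolar

/-!
# The exceptional set of a plurisubharmonic function has Lebesgue measure zero

Let `φ` be plurisubharmonic on a connected open set `Ω` of `ℂⁿ`, not identically `-∞`. The set of the
points of `Ω` at which `φ` has no differential test from above is a null set. The definitions are
those of the starting hand-in `NotPluripolar`, which answers the second question of the problem.

Proof. Let `K` be a small closed ball with centre `c` and radius `R` in `Ω`. For every `y` in the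
concentric ball of radius `R / 8` let `x` be a point of `K` at which `φ w - (t / 2) ‖w - y‖ ^ 2` has its
maximum over `K`. For large `t` the point `x` is in the interior of `K`, hence has a test from above.
The vertex `y` is a Lipschitz function of the contact point `x`, with the constant `22`: if `φ` is
touched from above at `x₁` and at `x₂` by two such paraboloids, whose slopes differ by `t g`, then
the submean value property for ONE circle around `x₁`, of radius `4 ‖x₁ - x₂‖` in the complex line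
with the direction `g`, applied to a mean of the two paraboloids with the weights
`(1 ± cos θ) / 2`, bounds `‖g‖` by `21 ‖x₁ - x₂‖`. So the set of the contact points, which is
compact, has at least the part `176 ^ (- 2 n)` of the measure of `K`. By the density theorem of
Lebesgue the exceptional set is a null set.
-/

set_option autoImplicit false

open Set Filter Topology Metric MeasureTheory Module
open Pool.Agent.Results.MP_725b87_an.NotPluripolar

namespace Pool.Agent.Results.MP_725b87_an.ExceptionalSetNull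

/-! ### The mean value inequality for two paraboloids -/

theorem mean_trig (A0 A1 A2 A3 : ℝ) :
    (2 * Real.pi)⁻¹ * ∫ θ in (0 : ℝ)..(2 * Real.pi),
      (A0 + A1 * Real.cos θ + A2 * Real.sin θ + A3 * Real.cos θ ^ 2) = A0 + A3 / 2 := by
  have hpi : Real.pi ≠ 0 := Real.pi_ne_zero
  rw [intervalIntegral.integral_add (by apply Continuous.intervalIntegrable; fun_prop)
      (by apply Continuous.intervalIntegrable; fun_prop),
    intervalIntegral.integral_add (by apply Continuous.intervalIntegrable; fun_prop)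
      (by apply Continuous.intervalIntegrable; fun_prop),
    intervalIntegral.integral_add (by apply Continuous.intervalIntegrable; fun_prop)
      (by apply Continuous.intervalIntegrable; fun_prop),
    intervalIntegral.integral_const, intervalIntegral.integral_const_mul,
    intervalIntegral.integral_const_mul, intervalIntegral.integral_const_mul, integral_cos,
    integral_sin, integral_cos_sq]
  simp
  field_simp
  try ring

variable {n : ℕ}

theorem re_inner_exp (θ : ℝ) (v u : Cn n) :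
    (inner ℂ (Complex.exp ((θ : ℂ) * Complex.I) • v) u).re =
      Real.cos θ * (inner ℂ v u).re + Real.sin θ * (inner ℂ v u).im := by
  rw [inner_smul_left, ← Complex.exp_conj, Complex.mul_re]
  simp [Complex.exp_re, Complex.exp_im]

theorem norm_add_sq' (a b : Cn n) :
    ‖a + b‖ ^ 2 = ‖a‖ ^ 2 + 2 * (inner ℂ a b).re + ‖b‖ ^ 2 := by
  rw [norm_add_sq (𝕜 := ℂ)]; rfl

/-- the mean value inequality for one circle and two paraboloids which touch from above -/
theorem two_paraboloids {Ω : Set (Cn n)} {φ : Cn n → EReal} (hφ : IsPSH Ω φ) {c : Cn n} {R t : ℝ}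
    (hK : closedBall c R ⊆ Ω) (ht : 0 < t) {x1 x2 y1 y2 : Cn n} {a1 a2 : ℝ}
    (h1 : φ x1 = a1) (h2 : φ x2 = a2) (hx1 : x1 ∈ closedBall c (3 / 4 * R))
    (hx2 : x2 ∈ closedBall c R)
    (c1 : ∀ w ∈ closedBall c R, φ w ≤ ((a1 + t / 2 * (‖w - y1‖ ^ 2 - ‖x1 - y1‖ ^ 2) : ℝ) : EReal))
    (c2 : ∀ w ∈ closedBall c R, φ w ≤ ((a2 + t / 2 * (‖w - y2‖ ^ 2 - ‖x2 - y2‖ ^ 2) : ℝ) : EReal))
    {ρ : ℝ} (hρ : 0 < ρ) (hρR : ρ ≤ R / 4) (g : Cn n) (hg : g = (x2 - y2) - (x1 - y1)) :
    ρ * ‖g‖ ≤ ρ ^ 2 + (‖x1 - x2‖ ^ 2 + (ρ + ‖x1 - x2‖) ^ 2 + 2 * ‖x1 - x2‖ * ‖g‖) := by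
  rcases eq_or_ne g 0 with h0 | h0
  · rw [h0]; simp only [norm_zero, mul_zero]; positivity
  have hgn : 0 < ‖g‖ := norm_pos_iff.2 h0
  set r : ℝ := ‖x1 - x2‖ with hr
  have hr0 : 0 ≤ r := norm_nonneg _
  set v : Cn n := ((ρ / ‖g‖ : ℝ) : ℂ) • g with hv
  have hvn : ‖v‖ = ρ := by
    rw [hv, norm_smul, Complex.norm_real, Real.norm_eq_abs, abs_of_pos (by positivity)]
    field_simp
  have hvg : inner ℂ v g = ((ρ * ‖g‖ : ℝ) : ℂ) := by
    rw [hv, inner_smul_left, inner_self_eq_norm_sq_to_K, Complex.conj_ofReal]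
    have hne : ((‖g‖ : ℝ) : ℂ) ≠ 0 := by exact_mod_cast hgn.ne'
    push_cast
    field_simp
    try rfl
  -- the disc
  have hdisc : ∀ ζ : ℂ, ‖ζ‖ ≤ 1 → x1 + ζ • v ∈ closedBall c R := by
    intro ζ hζ
    rw [mem_closedBall, dist_eq_norm]
    rw [mem_closedBall, dist_eq_norm] at hx1
    calc ‖x1 + ζ • v - c‖ = ‖(x1 - c) + ζ • v‖ := by congr 1; abel
      _ ≤ ‖x1 - c‖ + ‖ζ • v‖ := norm_add_le _ _
      _ ≤ 3 / 4 * R + 1 * ρ := by
          rw [norm_smul, hvn]
          gcongr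
      _ ≤ R := by linarith
  set p : ℝ := (inner ℂ v (x1 - y1)).re with hp
  set q : ℝ := (inner ℂ v (x1 - y1)).im with hq
  set B : ℝ := r ^ 2 + (ρ + r) ^ 2 + 2 * r * ‖g‖ with hB
  -- the value at `x2`
  have ha2 : a2 ≤ a1 + t / 2 * (r ^ 2 + 2 * (inner ℂ (x2 - x1) (x1 - y1)).re) := by
    have := c1 x2 hx2
    rw [h2, EReal.coe_le_coe_iff] at this
    have e : ‖x2 - y1‖ ^ 2 = ‖x2 - x1‖ ^ 2 + 2 * (inner ℂ (x2 - x1) (x1 - y1)).re
        + ‖x1 - y1‖ ^ 2 := by
      rw [← norm_add_sq']; congr 2; abel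
    rw [e] at this
    have e2 : ‖x2 - x1‖ = r := by rw [hr, norm_sub_rev]
    rw [e2] at this
    linarith
  have hmaj : ∀ θ ∈ Icc 0 (2 * Real.pi), φ (circ x1 v θ) ≤
      (((a1 + t / 2 * (ρ ^ 2 / 2 + B / 2)) + (t * p + t / 2 * (ρ ^ 2 / 2 - B / 2 + ρ * ‖g‖)) *
        Real.cos θ + (t * q) * Real.sin θ + (-(t / 2 * (ρ * ‖g‖))) * Real.cos θ ^ 2 : ℝ) :
          EReal) := by
    intro θ _
    set e : Cn n := Complex.exp ((θ : ℂ) * Complex.I) • v with he
    have hen : ‖e‖ = ρ := by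
      rw [he, norm_smul, Complex.norm_exp_ofReal_mul_I, one_mul, hvn]
    have hw : circ x1 v θ = x1 + e := rfl
    have hwK : x1 + e ∈ closedBall c R :=
      hdisc _ (by rw [Complex.norm_exp_ofReal_mul_I])
    have b1 := c1 _ hwK
    have b2 := c2 _ hwK
    rw [hw]
    have eS : (inner ℂ e (x1 - y1)).re = Real.cos θ * p + Real.sin θ * q := re_inner_exp θ v _
    have eG : (inner ℂ e g).re = Real.cos θ * (ρ * ‖g‖) := by
      rw [he, re_inner_exp, hvg]; simp
    have e1 : ‖x1 + e - y1‖ ^ 2 = ρ ^ 2 + 2 * (Real.cos θ * p + Real.sin θ * q)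
        + ‖x1 - y1‖ ^ 2 := by
      rw [← eS, ← hen, ← norm_add_sq']; congr 2; abel
    have e2 : ‖x1 + e - y2‖ ^ 2 = ‖x1 + e - x2‖ ^ 2 + 2 * (inner ℂ (x1 + e - x2) (x2 - y2)).re
        + ‖x2 - y2‖ ^ 2 := by
      rw [← norm_add_sq']; congr 2; abel
    have e3 : (inner ℂ (x1 + e - x2) (x2 - y2)).re = Real.cos θ * (ρ * ‖g‖)
        + (inner ℂ (x1 - x2) g).re + (Real.cos θ * p + Real.sin θ * q)
        + (inner ℂ (x1 - x2) (x1 - y1)).re := by
      have k1 : x1 + e - x2 = e + (x1 - x2) := by abel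
      have k2 : x2 - y2 = g + (x1 - y1) := by rw [hg]; abel
      rw [k1, k2, inner_add_left, inner_add_right, inner_add_right]
      simp only [Complex.add_re]
      rw [eS, eG]; ring
    have e4 : (inner ℂ (x2 - x1) (x1 - y1)).re = -(inner ℂ (x1 - x2) (x1 - y1)).re := by
      rw [← neg_sub x1 x2, inner_neg_left, Complex.neg_re]
    have e5 : ‖x1 + e - x2‖ ≤ ρ + r := by
      calc ‖x1 + e - x2‖ = ‖e + (x1 - x2)‖ := by congr 1; abel
        _ ≤ ‖e‖ + ‖x1 - x2‖ := norm_add_le _ _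
        _ = ρ + r := by rw [hen]
    have e6 : ‖x1 + e - x2‖ ^ 2 ≤ (ρ + r) ^ 2 := by gcongr
    have e7 : (inner ℂ (x1 - x2) g).re ≤ r * ‖g‖ :=
      (Complex.re_le_norm _).trans (norm_inner_le_norm _ _)
    induction hf : φ (x1 + e) using EReal.rec with
    | bot => exact bot_le
    | top => rw [hf] at b1; exact absurd (top_le_iff.1 b1) (EReal.coe_ne_top _)
    | coe f =>
      rw [hf, EReal.coe_le_coe_iff] at b1 b2
      rw [EReal.coe_le_coe_iff]
      rw [e1] at b1
      rw [e2, e3] at b2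
      rw [e4] at ha2
      have b1' : f ≤ a1 + t / 2 * (ρ ^ 2 + 2 * (Real.cos θ * p + Real.sin θ * q)) := by linarith
      have b2' : f ≤ a1 + t / 2 * (B + 2 * (ρ * ‖g‖) * Real.cos θ
          + 2 * (Real.cos θ * p + Real.sin θ * q)) := by
        have k : ‖x1 + e - x2‖ ^ 2 + 2 * (inner ℂ (x1 - x2) g).re ≤ (ρ + r) ^ 2
            + 2 * (r * ‖g‖) := by linarith
        have k' := mul_le_mul_of_nonneg_left k (by positivity : (0 : ℝ) ≤ t / 2)
        rw [hB]
        nlinarith [k', b2, ha2]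
      have l1 : 0 ≤ (1 + Real.cos θ) / 2 := by linarith [Real.neg_one_le_cos θ]
      have l2 : 0 ≤ (1 - Real.cos θ) / 2 := by linarith [Real.cos_le_one θ]
      have m1 := mul_le_mul_of_nonneg_left b1' l1
      have m2 := mul_le_mul_of_nonneg_left b2' l2
      nlinarith [m1, m2]
  have hmean := hφ.2.2 x1 v (fun ζ hζ => hK (hdisc ζ hζ)) _ (by fun_prop) hmaj
  rw [mean_trig, h1, EReal.coe_le_coe_iff] at hmean
  have : 0 ≤ t / 2 * (ρ ^ 2 / 2 + B / 2 - ρ * ‖g‖ / 2) := by linarith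
  have := nonneg_of_mul_nonneg_right this (by positivity)
  linarith


/-- the point `x` of the closed ball is a point of contact for the paraboloid with the vertex `y` -/
def Ct (φ : Cn n → EReal) (c : Cn n) (R t : ℝ) (x y : Cn n) : Prop :=
  ∀ w ∈ closedBall c R, φ w ≤ φ x + ((t / 2 * (‖w - y‖ ^ 2 - ‖x - y‖ ^ 2) : ℝ) : EReal)

/-- the vertex is a Lipschitz function of the point of contact -/
theorem vertex_lipschitz {Ω : Set (Cn n)} {φ : Cn n → EReal} (hφ : IsPSH Ω φ) {c : Cn n}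
    {R t : ℝ} (hR : 0 < R) (hK : closedBall c R ⊆ Ω) (ht : 0 < t) {x1 x2 y1 y2 : Cn n}
    (hb1 : φ x1 ≠ ⊥) (hb2 : φ x2 ≠ ⊥) (hx1 : x1 ∈ closedBall c (3 / 4 * R))
    (hx2 : x2 ∈ closedBall c (3 / 4 * R)) (hy1 : y1 ∈ closedBall c (R / 8))
    (hy2 : y2 ∈ closedBall c (R / 8)) (c1 : Ct φ c R t x1 y1) (c2 : Ct φ c R t x2 y2) :
    ‖y1 - y2‖ ≤ 22 * ‖x1 - x2‖ := by
  have hsub : closedBall c (3 / 4 * R) ⊆ closedBall c R := closedBall_subset_closedBall (by linarith)
  obtain ⟨a1, h1⟩ : ∃ a : ℝ, φ x1 = a :=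
    ⟨(φ x1).toReal, (EReal.coe_toReal (hφ.1 _ (hK (hsub hx1))) hb1).symm⟩
  obtain ⟨a2, h2⟩ : ∃ a : ℝ, φ x2 = a :=
    ⟨(φ x2).toReal, (EReal.coe_toReal (hφ.1 _ (hK (hsub hx2))) hb2).symm⟩
  have c1' : ∀ w ∈ closedBall c R,
      φ w ≤ ((a1 + t / 2 * (‖w - y1‖ ^ 2 - ‖x1 - y1‖ ^ 2) : ℝ) : EReal) := by
    intro w hw
    have := c1 w hw
    rwa [h1, ← EReal.coe_add] at this
  have c2' : ∀ w ∈ closedBall c R,
      φ w ≤ ((a2 + t / 2 * (‖w - y2‖ ^ 2 - ‖x2 - y2‖ ^ 2) : ℝ) : EReal) := by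
    intro w hw
    have := c2 w hw
    rwa [h2, ← EReal.coe_add] at this
  obtain ⟨g, hg⟩ : ∃ g : Cn n, g = (x2 - y2) - (x1 - y1) := ⟨_, rfl⟩
  have key := fun (ρ : ℝ) (h : 0 < ρ) (h' : ρ ≤ R / 4) =>
    two_paraboloids hφ hK ht h1 h2 hx1 (hsub hx2) c1' c2' h h' g hg
  obtain ⟨r, hr⟩ : ∃ r : ℝ, r = ‖x1 - x2‖ := ⟨_, rfl⟩
  rw [← hr] at key ⊢
  have hr0 : 0 ≤ r := hr ▸ norm_nonneg _
  have hdiff : ‖y1 - y2‖ ≤ ‖g‖ + r := by
    calc ‖y1 - y2‖ = ‖g + (x1 - x2)‖ := by rw [hg]; congr 1; abel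
      _ ≤ ‖g‖ + ‖x1 - x2‖ := norm_add_le _ _
      _ = ‖g‖ + r := by rw [hr]
  rcases lt_or_ge (R / 16) r with hbig | hsmall
  · have : ‖y1 - y2‖ ≤ R / 4 := by
      rw [mem_closedBall, dist_eq_norm] at hy1 hy2
      calc ‖y1 - y2‖ = ‖(y1 - c) - (y2 - c)‖ := by congr 1; abel
        _ ≤ ‖y1 - c‖ + ‖y2 - c‖ := norm_sub_le _ _
        _ ≤ R / 4 := by linarith
    linarith
  rcases hr0.eq_or_lt with h0 | hpos
  · -- the same point of contact
    have hg0 : ‖g‖ ≤ 0 := by
      refine le_of_forall_pos_le_add fun ε hε => ?_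
      have h := key (min (ε / 2) (R / 4)) (by positivity) (min_le_right _ _)
      rw [← h0] at h
      obtain ⟨m, hm⟩ : ∃ m : ℝ, m = min (ε / 2) (R / 4) := ⟨_, rfl⟩
      have hm0 : 0 < m := hm ▸ (by positivity)
      have hm1 : m ≤ ε / 2 := hm ▸ min_le_left _ _
      rw [← hm] at h
      have : m * ‖g‖ ≤ m * (2 * m) := by nlinarith
      have := le_of_mul_le_mul_left this hm0
      linarith
    linarith
  · have h := key (4 * r) (by positivity) (by linarith)
    have : r * ‖g‖ ≤ r * (21 * r) := by nlinarith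
    have := le_of_mul_le_mul_left this hpos
    linarith

/-! ### The set of the points of contact -/

/-- the points of contact for the vertices in the ball of radius `R / 8` -/
def cset (φ : Cn n → EReal) (c : Cn n) (R t : ℝ) : Set (Cn n) :=
  {x | x ∈ closedBall c (3 / 4 * R) ∧ ∃ y ∈ closedBall c (R / 8), Ct φ c R t x y}

theorem usc_extend {Ω : Set (Cn n)} {φ : Cn n → EReal} (hφ : IsPSH Ω φ) {c : Cn n} {R : ℝ}
    (hK : closedBall c R ⊆ Ω) :
    UpperSemicontinuous (fun x => open Classical in if x ∈ closedBall c R then φ x else ⊥) := by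
  classical
  intro x b hb
  by_cases hx : x ∈ closedBall c R
  · simp only [hx, if_true] at hb
    have h := hφ.2.1.mono hK x hx b hb
    have h' := eventually_nhdsWithin_iff.1 h
    filter_upwards [h'] with w hw
    by_cases hwK : w ∈ closedBall c R
    · simp only [hwK, if_true]; exact hw hwK
    · simp only [hwK, if_false]; exact lt_of_le_of_lt bot_le hb
  · simp only [hx, if_false] at hb
    filter_upwards [isClosed_closedBall.isOpen_compl.mem_nhds hx] with w hw
    have hw' : w ∉ closedBall c R := hw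
    simp only [hw', if_false]; exact hb

theorem cset_isCompact {Ω : Set (Cn n)} {φ : Cn n → EReal} (hφ : IsPSH Ω φ) {c : Cn n} {R t : ℝ}
    (hR : 0 < R) (hK : closedBall c R ⊆ Ω) : IsCompact (cset φ c R t) := by
  classical
  set ψ : Cn n → EReal := fun x => if x ∈ closedBall c R then φ x else ⊥ with hψ
  have husc : UpperSemicontinuous ψ := by
    have := usc_extend hφ hK
    convert this
  have hset : cset φ c R t = Prod.fst '' ((closedBall c (3 / 4 * R) ×ˢ closedBall c (R / 8)) ∩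
      ⋂ w ∈ closedBall c R, {p : Cn n × Cn n | φ w ≤ ψ p.1 +
        ((t / 2 * (‖w - p.2‖ ^ 2 - ‖p.1 - p.2‖ ^ 2) : ℝ) : EReal)}) := by
    ext x
    constructor
    · rintro ⟨hx, y, hy, h⟩
      refine ⟨(x, y), ⟨⟨hx, hy⟩, ?_⟩, rfl⟩
      simp only [mem_iInter, mem_ofPred_eq]
      intro w hw
      have hxK : x ∈ closedBall c R := closedBall_subset_closedBall (by linarith) hx
      have : ψ x = φ x := if_pos hxK
      rw [this]; exact h w hw
    · rintro ⟨⟨x', y⟩, ⟨⟨hx, hy⟩, h⟩, rfl⟩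
      refine ⟨hx, y, hy, ?_⟩
      simp only [mem_iInter, mem_ofPred_eq] at h
      intro w hw
      have hxK : x' ∈ closedBall c R := closedBall_subset_closedBall (by linarith) hx
      have : ψ x' = φ x' := if_pos hxK
      have := h w hw
      rwa [‹ψ x' = φ x'›] at this
  rw [hset]
  refine IsCompact.image ?_ continuous_fst
  refine ((isCompact_closedBall _ _).prod (isCompact_closedBall _ _)).inter_right ?_
  refine isClosed_biInter fun w _ => ?_
  have h1 : UpperSemicontinuous (fun p : Cn n × Cn n => ψ p.1) := husc.comp continuous_fst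
  have h2 : Continuous (fun p : Cn n × Cn n =>
      ((t / 2 * (‖w - p.2‖ ^ 2 - ‖p.1 - p.2‖ ^ 2) : ℝ) : EReal)) :=
    continuous_coe_real_ereal.comp (by fun_prop)
  have h3 := h1.add' h2.upperSemicontinuous (fun p => EReal.continuousAt_add
    (Or.inr (EReal.coe_ne_bot _)) (Or.inr (EReal.coe_ne_top _)))
  exact h3.isClosed_preimage (φ w)

theorem ereal_aux (z : EReal) (α β γ : ℝ) (h : γ = β - α) :
    z - (α : EReal) = z + (γ : EReal) - (β : EReal) := by
  subst h
  induction z using EReal.rec with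
  | bot => rw [EReal.bot_add, EReal.bot_sub, EReal.bot_sub]
  | top => rw [EReal.top_add_coe, EReal.top_sub_coe, EReal.top_sub_coe]
  | coe z => norm_cast; ring

/-- the points of contact have a test from above -/
theorem cset_not_exceptional {Ω : Set (Cn n)} {φ : Cn n → EReal} {c : Cn n} {R t : ℝ} (hR : 0 < R)
    (hK : closedBall c R ⊆ Ω) {x : Cn n} (hx : x ∈ cset φ c R t) : x ∉ exceptional Ω φ := by
  rintro ⟨-, hno⟩
  obtain ⟨hx1, y, -, h⟩ := hx
  refine hno ⟨ball c R, fun w => t / 2 * ‖w - y‖ ^ 2, isOpen_ball,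
    ball_subset_closedBall.trans hK, ?_, ?_, ?_⟩
  · rw [mem_closedBall] at hx1
    rw [mem_ball]
    linarith
  · have : ContDiff ℝ 2 (fun w : Cn n => t / 2 * ‖w - y‖ ^ 2) :=
      contDiff_const.mul ((contDiff_norm_sq ℂ).comp (contDiff_id.sub contDiff_const))
    exact this.contDiffOn
  · intro w hw
    have h1 := h w (ball_subset_closedBall hw)
    rw [ereal_aux (φ x) (t / 2 * ‖x - y‖ ^ 2) (t / 2 * ‖w - y‖ ^ 2)
      (t / 2 * (‖w - y‖ ^ 2 - ‖x - y‖ ^ 2)) (by ring)]
    exact EReal.sub_le_sub h1 le_rfl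

/-- for large `t` every vertex has a point of contact -/
theorem exists_contact {Ω : Set (Cn n)} {φ : Cn n → EReal} (hφ : IsPSH Ω φ) {c : Cn n} {R : ℝ}
    (hR : 0 < R) (hK : closedBall c R ⊆ Ω) {w0 : Cn n} (hw0 : w0 ∈ closedBall c (R / 8))
    (hb : φ w0 ≠ ⊥) :
    ∃ t : ℝ, 0 < t ∧ ∀ y ∈ closedBall c (R / 8), ∃ x ∈ closedBall c (3 / 4 * R),
      φ x ≠ ⊥ ∧ Ct φ c R t x y := by
  have hsub : closedBall c (R / 8) ⊆ closedBall c R := closedBall_subset_closedBall (by linarith)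
  have hcK : c ∈ closedBall c R := mem_closedBall_self hR.le
  have husc : UpperSemicontinuousOn φ (closedBall c R) := hφ.2.1.mono hK
  obtain ⟨m, hm, hmax⟩ := husc.exists_isMaxOn ⟨c, hcK⟩ (isCompact_closedBall c R)
  have hmb : φ m ≠ ⊥ := fun h => hb (le_bot_iff.1 (h ▸ hmax (hsub hw0)))
  obtain ⟨M, hM⟩ : ∃ M : ℝ, φ m = M :=
    ⟨(φ m).toReal, (EReal.coe_toReal (hφ.1 _ (hK hm)) hmb).symm⟩
  obtain ⟨a, ha⟩ : ∃ a : ℝ, φ w0 = a :=
    ⟨(φ w0).toReal, (EReal.coe_toReal (hφ.1 _ (hK (hsub hw0))) hb).symm⟩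
  have haM : a ≤ M := by
    have := hmax (hsub hw0)
    simp only [mem_ofPred_eq] at this
    rwa [hM, ha, EReal.coe_le_coe_iff] at this
  obtain ⟨t, ht⟩ : ∃ t : ℝ, t = 8 * (M - a + 1) / R ^ 2 := ⟨_, rfl⟩
  have htR : t * R ^ 2 = 8 * (M - a + 1) := by rw [ht]; field_simp
  have htpos : 0 < t := by rw [ht]; exact div_pos (by linarith) (by positivity)
  refine ⟨t, htpos, ?_⟩
  intro y hy
  -- the maximum of `φ - (t / 2) ‖· - y‖ ^ 2`
  have h2 : Continuous (fun w : Cn n => ((-(t / 2 * ‖w - y‖ ^ 2) : ℝ) : EReal)) :=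
    continuous_coe_real_ereal.comp (by fun_prop)
  have h3 : UpperSemicontinuousOn (fun w => φ w + ((-(t / 2 * ‖w - y‖ ^ 2) : ℝ) : EReal))
      (closedBall c R) :=
    husc.add' (h2.upperSemicontinuous.upperSemicontinuousOn _) (fun p _ => EReal.continuousAt_add
      (Or.inr (EReal.coe_ne_bot _)) (Or.inr (EReal.coe_ne_top _)))
  obtain ⟨x, hx, hxmax⟩ := h3.exists_isMaxOn ⟨c, hcK⟩ (isCompact_closedBall c R)
  have hmx : ∀ w ∈ closedBall c R, φ w + ((-(t / 2 * ‖w - y‖ ^ 2) : ℝ) : EReal) ≤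
      φ x + ((-(t / 2 * ‖x - y‖ ^ 2) : ℝ) : EReal) := fun w hw => hxmax hw
  have hxb : φ x ≠ ⊥ := by
    intro h
    have := hmx w0 (hsub hw0)
    rw [h, ha, EReal.bot_add, ← EReal.coe_add] at this
    exact EReal.coe_ne_bot _ (le_bot_iff.1 this)
  obtain ⟨b, hbx⟩ : ∃ b : ℝ, φ x = b :=
    ⟨(φ x).toReal, (EReal.coe_toReal (hφ.1 _ (hK hx)) hxb).symm⟩
  have hbM : b ≤ M := by
    have : φ x ≤ φ m := hmax hx
    rwa [hM, hbx, EReal.coe_le_coe_iff] at this
  refine ⟨x, ?_, hxb, ?_⟩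
  · by_contra hfar
    rw [mem_closedBall, not_le] at hfar
    have h4 := hmx w0 (hsub hw0)
    rw [ha, hbx, ← EReal.coe_add, ← EReal.coe_add, EReal.coe_le_coe_iff] at h4
    rw [mem_closedBall] at hy hw0
    have d1 : 5 / 8 * R ≤ ‖x - y‖ := by
      have := dist_triangle x y c
      rw [← dist_eq_norm]
      linarith
    have d2 : ‖w0 - y‖ ≤ R / 4 := by
      have := dist_triangle w0 c y
      rw [dist_comm c y] at this
      rw [← dist_eq_norm]
      linarith
    have d3 : (5 / 8 * R) ^ 2 ≤ ‖x - y‖ ^ 2 := by gcongr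
    have d4 : ‖w0 - y‖ ^ 2 ≤ (R / 4) ^ 2 := by gcongr
    have d5 := mul_le_mul_of_nonneg_left d3 (by positivity : (0 : ℝ) ≤ t / 2)
    have d6 := mul_le_mul_of_nonneg_left d4 (by positivity : (0 : ℝ) ≤ t / 2)
    nlinarith [d5, d6, htR]
  · intro w hw
    have h5 := hmx w hw
    rw [hbx, ← EReal.coe_add] at h5
    rw [hbx, ← EReal.coe_add]
    induction hf : φ w using EReal.rec with
    | bot => exact bot_le
    | top => exact absurd hf (hφ.1 _ (hK hw))
    | coe f =>
      rw [hf, ← EReal.coe_add, EReal.coe_le_coe_iff] at h5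
      rw [EReal.coe_le_coe_iff]
      linarith

/-! ### Measure -/

variable [MeasurableSpace (Cn n)] [BorelSpace (Cn n)]

/-- the points of contact have at least the part `176 ^ (-2 n)` of the measure of the ball -/
theorem measure_cset {Ω : Set (Cn n)} {φ : Cn n → EReal} (hφ : IsPSH Ω φ) {c : Cn n}
    {R t : ℝ} (hR : 0 < R) (hK : closedBall c R ⊆ Ω) (ht : 0 < t)
    (hex : ∀ y ∈ closedBall c (R / 8), ∃ x ∈ closedBall c (3 / 4 * R),
      φ x ≠ ⊥ ∧ Ct φ c R t x y) :
    (μH[finrank ℝ (Cn n)] : Measure (Cn n)) (closedBall c R) ≤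
      176 ^ finrank ℝ (Cn n) * (μH[finrank ℝ (Cn n)] : Measure (Cn n)) (cset φ c R t) := by
  classical
  set d := finrank ℝ (Cn n) with hd
  -- some point of the ball has a finite value
  obtain ⟨x0, hx0, hx0b, hx0c⟩ := hex c (mem_closedBall_self (by positivity))
  have hnb : ∀ x ∈ cset φ c R t, φ x ≠ ⊥ := by
    rintro x ⟨hx, y, hy, h⟩ hbot
    have := h x0 (closedBall_subset_closedBall (by linarith) hx0)
    rw [hbot, EReal.bot_add] at this
    exact hx0b (le_bot_iff.1 this)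
  choose! F hF using fun (x : Cn n) (hx : x ∈ cset φ c R t) => hx.2
  have hlip : LipschitzOnWith 22 F (cset φ c R t) := by
    refine LipschitzOnWith.of_dist_le_mul fun x hx x' hx' => ?_
    rw [dist_eq_norm, dist_eq_norm]
    exact vertex_lipschitz hφ hR hK ht (hnb x hx) (hnb x' hx') hx.1 hx'.1 (hF x hx).1
      (hF x' hx').1 (hF x hx).2 (hF x' hx').2
  have himg : closedBall c (R / 8) ⊆ F '' cset φ c R t := by
    intro y hy
    obtain ⟨x, hx, hxb, hxc⟩ := hex y hy
    have hxs : x ∈ cset φ c R t := ⟨hx, y, hy, hxc⟩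
    refine ⟨x, hxs, ?_⟩
    have := vertex_lipschitz hφ hR hK ht hxb hxb hx hx (hF x hxs).1 hy (hF x hxs).2 hxc
    rw [sub_self, norm_zero, mul_zero] at this
    exact sub_eq_zero.1 (norm_le_zero_iff.1 this)
  have h1 : (μH[d] : Measure (Cn n)) (closedBall c (R / 8)) ≤ 22 ^ d * μH[d] (cset φ c R t) := by
    refine (measure_mono himg).trans ?_
    have := hlip.hausdorffMeasure_image_le (d := (d : ℝ)) (by positivity)
    rw [ENNReal.rpow_natCast] at this
    exact_mod_cast this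
  have h2 : (μH[d] : Measure (Cn n)) (closedBall c R) =
      8 ^ d * μH[d] (closedBall c (R / 8)) := by
    rw [Measure.addHaar_closedBall _ _ hR.le, Measure.addHaar_closedBall _ _ (by positivity),
      ← mul_assoc]
    congr 1
    rw [show (8 : ENNReal) = ENNReal.ofReal 8 by norm_num, ← ENNReal.ofReal_pow (by norm_num),
      ← ENNReal.ofReal_mul (by positivity), ← mul_pow]
    congr 2
    ring
  rw [h2, show (176 : ENNReal) = 8 * 22 by norm_num, mul_pow, mul_assoc]
  gcongr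

/-- **Main theorem**, for the Hausdorff measure -/
theorem main {Ω : Set (Cn n)} (hΩ : IsOpen Ω) (hconn : IsPreconnected Ω) {φ : Cn n → EReal}
    (hφ : IsPSH Ω φ) (hne : ∃ z ∈ Ω, φ z ≠ ⊥) :
    (μH[finrank ℝ (Cn n)] : Measure (Cn n)) (exceptional Ω φ) = 0 := by
  set d := finrank ℝ (Cn n) with hd
  by_contra hpos
  have hae := Besicovitch.ae_tendsto_measure_inter_div (μH[d] : Measure (Cn n)) (exceptional Ω φ)
  rw [ae_iff] at hae
  obtain ⟨c, hcE, hc⟩ : ∃ c ∈ exceptional Ω φ, Tendsto (fun r => (μH[d] : Measure (Cn n))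
      (exceptional Ω φ ∩ closedBall c r) / μH[d] (closedBall c r)) (𝓝[>] 0) (𝓝 1) := by
    by_contra hno
    push Not at hno
    apply hpos
    have hsub : exceptional Ω φ ⊆ {a | ¬ Tendsto (fun r => (μH[d] : Measure (Cn n))
      (exceptional Ω φ ∩ closedBall a r) / μH[d] (closedBall a r)) (𝓝[>] 0) (𝓝 1)} ∩
        exceptional Ω φ := fun x hx => ⟨hno x hx, hx⟩
    exact measure_mono_null hsub
      (nonpos_iff_eq_zero.1 ((Measure.le_restrict_apply _ _).trans hae.le))
  have hcΩ : c ∈ Ω := hcE.1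
  obtain ⟨ε, hε, hεΩ⟩ := Metric.isOpen_iff.1 hΩ c hcΩ
  have hbound : ∀ R : ℝ, 0 < R → R < ε → (μH[d] : Measure (Cn n))
      (exceptional Ω φ ∩ closedBall c R) / μH[d] (closedBall c R) + (176 ^ d)⁻¹ ≤ 1 := by
    intro R hR hRε
    have hK : closedBall c R ⊆ Ω := (closedBall_subset_ball hRε).trans hεΩ
    obtain ⟨w0, hw0, hw0b⟩ : ∃ w0 ∈ closedBall c (R / 8), φ w0 ≠ ⊥ := by
      by_contra hno
      push Not at hno
      obtain ⟨z, hz, hzb⟩ := hne
      exact hzb (eq_bot_propagate Ω hΩ hconn φ hφ c (R / 8) (by positivity)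
        ((ball_subset_closedBall.trans (closedBall_subset_closedBall (by linarith))).trans hK)
        (fun z hz => hno z (ball_subset_closedBall hz)) z hz)
    obtain ⟨t, ht, hex⟩ := exists_contact hφ hR hK hw0 hw0b
    have hm := measure_cset hφ hR hK ht hex
    have hAm : MeasurableSet (cset φ c R t) := (cset_isCompact hφ hR hK).measurableSet
    have hdisj : Disjoint (exceptional Ω φ ∩ closedBall c R) (cset φ c R t) := by
      rw [Set.disjoint_left]
      rintro x ⟨hx, -⟩ hx'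
      exact cset_not_exceptional hR hK hx' hx
    have hadd : (μH[d] : Measure (Cn n)) (exceptional Ω φ ∩ closedBall c R)
        + μH[d] (cset φ c R t) ≤ μH[d] (closedBall c R) := by
      rw [← measure_union hdisj hAm]
      refine measure_mono (union_subset inter_subset_right ?_)
      rintro x ⟨hx, -⟩
      exact closedBall_subset_closedBall (by linarith) hx
    have hb0 : (μH[d] : Measure (Cn n)) (closedBall c R) ≠ 0 :=
      (measure_closedBall_pos _ _ hR).ne'
    have hbt : (μH[d] : Measure (Cn n)) (closedBall c R) ≠ ⊤ := measure_closedBall_lt_top.ne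
    have h176 : ((176 : ENNReal) ^ d)⁻¹ ≤ μH[d] (cset φ c R t) / μH[d] (closedBall c R) := by
      rw [ENNReal.le_div_iff_mul_le (Or.inl hb0) (Or.inl hbt), mul_comm, ← div_eq_mul_inv]
      exact ENNReal.div_le_of_le_mul' hm
    calc _ ≤ (μH[d] : Measure (Cn n)) (exceptional Ω φ ∩ closedBall c R) / μH[d] (closedBall c R)
          + μH[d] (cset φ c R t) / μH[d] (closedBall c R) := by gcongr
      _ = (μH[d] (exceptional Ω φ ∩ closedBall c R) + μH[d] (cset φ c R t)) /
          μH[d] (closedBall c R) := (ENNReal.add_div).symm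
      _ ≤ 1 := ENNReal.div_le_of_le_mul (by rw [one_mul]; exact hadd)
  have hlim := hc.add_const (((176 : ENNReal) ^ d)⁻¹)
  have hle : (1 : ENNReal) + (176 ^ d)⁻¹ ≤ 1 := by
    refine le_of_tendsto hlim ?_
    filter_upwards [Ioo_mem_nhdsGT hε] with R hR
    exact hbound R hR.1 hR.2
  have : (1 : ENNReal) < 1 + (176 ^ d)⁻¹ :=
    ENNReal.lt_add_right ENNReal.one_ne_top (ENNReal.inv_ne_zero.2 (by finiteness))
  exact absurd hle (not_le.2 this)

/-- Let `Ω` be a connected open set in `ℂⁿ`, for instance a bounded pseudoconvex domain, and let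
`φ` be a plurisubharmonic function on `Ω`, not identically `-∞`. The exceptional set `E(φ)` of the
points of `Ω` at which `φ` has no differential test from above has Lebesgue measure zero (for every
Haar measure `μ` of `ℂⁿ`). -/
theorem result : ∀ (n : ℕ) (Ω : Set (Cn n)), IsOpen Ω → IsConnected Ω →
    ∀ φ : Cn n → EReal, IsPSH Ω φ → (∃ z ∈ Ω, φ z ≠ ⊥) →
    ∀ [MeasurableSpace (Cn n)] [BorelSpace (Cn n)] (μ : Measure (Cn n)) [μ.IsAddHaarMeasure],
      μ (exceptional Ω φ) = 0 := by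
  intro n Ω hΩ hconn φ hφ hne _ _ μ _
  have h := main hΩ hconn.isPreconnected hφ hne
  have hac : μ ≪ (μH[finrank ℝ (Cn n)] : Measure (Cn n)) := Measure.absolutelyContinuous_isAddHaarMeasure _ _
  exact hac h

end Pool.Agent.Results.MP_725b87_an.ExceptionalSetNull
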